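import Pool.Agent.H88.CL.Basic

/-! Closing lemma on the torus, row CON. -/

open Pool.Agent.H88.CL Set Function Topology Metric Filter

namespace Pool.Agent.H78.CL

theorem pf_CON : T_CON := by
  intro d g hg hL x y
  have h : IsLocallyConstant g := by
    rw [IsLocallyConstant.iff_eventually_eq]
    intro x
    have h1 : ∀ᶠ y in 𝓝 x, dist (g y) (g x) < 1 :=
      (Metric.tendsto_nhds.1 hg.continuousAt) 1 one_pos
    filter_upwards [h1] with y hy
    exact lat_eq (sub_mem (hL y) (hL x)) (by rwa [← dist_eq_norm])
  exact h.apply_eq_of_preconnectedSpace x y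

end Pool.Agent.H78.CL
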