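import Pool.Agent.H88.CL.Basic

/-! Closing lemma on the torus, row STR. -/

open Pool.Agent.H88.CL Set Function Topology Metric Filter

namespace Pool.Agent.H78.CL

theorem pf_STR (h : T_ITL) : T_STR := by
  intro d F F' hF N m p q ζ U W h0 hN hζ hU hNm hm hW
  -- the first `N` steps
  have ha : ∀ l ≤ N, (Gm F U)^[l] q = F^[l] (ζ l) := by
    intro l
    induction l with
    | zero => intro _; simp [h0]
    | succ l ih =>
      intro hl
      rw [iterate_succ_apply', ih (by omega), iterate_succ_apply']
      show F (F^[l] (ζ l) + U (F^[l] (ζ l))) = _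
      rw [hζ l (by omega)]
  -- the steps from `N` to `m`
  have hb : ∀ s, N ≤ s → s ≤ m → (Gm F U)^[s] q = F^[s] p := by
    intro s hs
    induction s, hs using Nat.le_induction with
    | base => intro _; rw [ha N le_rfl, hN]
    | succ s hs ih =>
      intro hsm
      have hz : U (F^[s] p) = 0 := by
        by_contra hne
        obtain ⟨l, hl, x, hx, hxl⟩ := hU _ hne
        have e : F^[s] p = F^[l] (F^[s - l] p) := by
          rw [← iterate_add_apply]
          congr 2
          omega
        rw [e] at hxl
        exact hW (s - l) (by omega) (by omega) x hx ((h d F F' hF l _ _).1 hxl)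
      rw [iterate_succ_apply', ih (by omega), iterate_succ_apply']
      show F (F^[s] p + U (F^[s] p)) = _
      rw [hz, add_zero]
  rw [hb m hNm le_rfl]
  exact hm

end Pool.Agent.H78.CL
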